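import Pool.Agent.H.MP_aeebd3_an.C

set_option autoImplicit false

namespace Pool.Agent.Results.MP_aeebd3_an.BothFields

open Matrix Real
open scoped ComplexOrder

/-- supremum of the bilinear form of `A` over unimodular scalars -/
noncomputable def bil {𝕜 : Type} [RCLike 𝕜] {m n : ℕ} (A : Matrix (Fin m) (Fin n) 𝕜) : ℝ :=
  sSup {r | ∃ (p : Fin m → 𝕜) (q : Fin n → 𝕜), (∀ i, ‖p i‖ = 1) ∧ (∀ j, ‖q j‖ = 1) ∧
    r = ‖∑ i, ∑ j, A i j * p i * q j‖}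

/-- Grothendieck's inequality holds over `𝕜` with constant `K` -/
def IsG (𝕜 : Type) [RCLike 𝕜] (K : ℝ) : Prop :=
  ∀ (m n : ℕ) (A : Matrix (Fin m) (Fin n) 𝕜) (H : Type) [NormedAddCommGroup H]
    [InnerProductSpace 𝕜 H] [CompleteSpace H] (u : Fin m → H) (v : Fin n → H),
    (∀ i, ‖u i‖ = 1) → (∀ j, ‖v j‖ = 1) →
      ‖∑ i, ∑ j, A i j * inner 𝕜 (u i) (v j)‖ ≤ K * bil A

/-- the Grothendieck constant -/
noncomputable def KG (𝕜 : Type) [RCLike 𝕜] : ℝ := sInf {K | 0 < K ∧ IsG 𝕜 K}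

/-- correlation matrices -/
def Corr {𝕜 : Type} [RCLike 𝕜] {k : ℕ} (S : Matrix (Fin k) (Fin k) 𝕜) : Prop :=
  S.PosSemidef ∧ ∀ i, S i i = 1

/-- maximum of the pairing with `B` over rank one correlation matrices -/
noncomputable def quad {𝕜 : Type} [RCLike 𝕜] {k : ℕ} (B : Matrix (Fin k) (Fin k) 𝕜) : ℝ :=
  sSup {r | ∃ x : Fin k → 𝕜, (∀ i, ‖x i‖ = 1) ∧ r = ‖(Bᴴ * vecMulVec x (star x)).trace‖}

/-- the inequality of the problem fails with constant `r` -/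
def Fails (𝕜 : Type) [RCLike 𝕜] (r : ℝ) : Prop :=
  ∃ (k : ℕ) (S B : Matrix (Fin k) (Fin k) 𝕜), Corr S ∧ r * quad B < ‖(Bᴴ * S).trace‖

lemma fails {𝕜 : Type} [RCLike 𝕜] {r : ℝ} (h0 : 0 ≤ r) (h : H.MP_aeebd3_an.Ex 𝕜 r) :
    Fails 𝕜 r := by
  obtain ⟨k, S, B, M, h1, h2, h3, h4, h5⟩ := h
  refine ⟨k, S, B, ⟨h1, h2⟩, lt_of_le_of_lt (mul_le_mul_of_nonneg_left ?_ h0) h5⟩
  exact Real.sSup_le (fun _ ⟨x, hx, e⟩ => e ▸ h4 x hx) h3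

lemma le_bil {𝕜 : Type} [RCLike 𝕜] {m n : ℕ} (A : Matrix (Fin m) (Fin n) 𝕜) (p : Fin m → 𝕜)
    (q : Fin n → 𝕜) (hp : ∀ i, ‖p i‖ = 1) (hq : ∀ j, ‖q j‖ = 1) :
    ‖∑ i, ∑ j, A i j * p i * q j‖ ≤ bil A := by
  refine le_csSup ⟨∑ i, ∑ j, ‖A i j‖, ?_⟩ ⟨p, q, hp, hq, rfl⟩
  rintro _ ⟨p, q, hp, hq, rfl⟩
  refine (norm_sum_le _ _).trans (Finset.sum_le_sum fun i _ => (norm_sum_le _ _).trans ?_)
  simp [hp, hq]

lemma isG_of {𝕜 : Type} [RCLike 𝕜] {K : ℝ} (h : ∀ (m n : ℕ) (A : Matrix (Fin m) (Fin n) 𝕜)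
    (H : Type) [NormedAddCommGroup H] [InnerProductSpace 𝕜 H] (u : Fin m → H) (v : Fin n → H),
    (∀ i, ‖u i‖ = 1) → (∀ j, ‖v j‖ = 1) →
      RCLike.re (∑ i, ∑ j, A i j * inner 𝕜 (u i) (v j)) ≤ K * bil A) : IsG 𝕜 K := by
  intro m n A H _ _ _ u v hu hv
  obtain ⟨c, hc, e⟩ := RCLike.exists_norm_eq_mul_self (∑ i, ∑ j, A i j * inner 𝕜 (u i) (v j))
  have := h m n A H u (fun j => c • v j) hu fun j => by rw [norm_smul, hc, hv, mul_one]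
  simp only [inner_smul_right, mul_left_comm _ c, ← Finset.mul_sum, ← e, RCLike.ofReal_re] at this
  exact this

lemma KG_le {𝕜 : Type} [RCLike 𝕜] {K : ℝ} (h1 : 0 < K) (h2 : IsG 𝕜 K) : KG 𝕜 ≤ K :=
  csInf_le (s := {K | 0 < K ∧ IsG 𝕜 K}) ⟨0, fun _ h => h.1.le⟩ ⟨h1, h2⟩

theorem result : Fails ℝ (KG ℝ) ∧ Fails ℂ (KG ℂ) := by
  have c := H.MP_aeebd3_an.arsinh_gt
  have p1 := pi_gt_d2
  have p2 := pi_lt_d2
  have hR : ∃ K, 0 < K ∧ K < π - 1 ∧ IsG ℝ K := by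
    refine ⟨π / (2 * arsinh 1), by positivity, ?_, isG_of fun m n A H _ _ u v hu hv =>
      Pool.Agent.H.MP_aeebd3_an.krivine u v hu hv A _ fun p q hp hq =>
        (le_abs_self _).trans (le_bil A p q hp hq)⟩
    rw [div_lt_iff₀ (by positivity)]
    nlinarith
  have hC : ∃ K, 0 < K ∧ K < 8 / π - 1 ∧ IsG ℂ K := by
    refine ⟨π / (2 * arsinh 1) * (4 + 2 * √2) / 8, by positivity, ?_,
      isG_of fun m n A H _ _ u v hu hv =>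
        Pool.Agent.H.MP_aeebd3_an.krivineC u v hu hv A _ (le_bil A)⟩
    have s2 : √2 < 1.4143 := by rw [sqrt_lt' (by norm_num)]; norm_num
    have p3 := pi_lt_d4
    have a1 : π / (2 * arsinh 1) < 1.8056 := by
      rw [div_lt_iff₀ (by positivity)]; nlinarith
    have a2 : 2.5464 < 8 / π := by rw [lt_div_iff₀ (by positivity)]; nlinarith
    have a3 : 0 < π / (2 * arsinh 1) := by positivity
    nlinarith [sqrt_nonneg 2]
  have fR : ∀ r, 0 ≤ r → r < π - 1 → Fails ℝ r := fun r h0 h => fails h0 (H.MP_aeebd3_an.exR r h)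
  have fC : ∀ r, 0 ≤ r → r < 8 / π - 1 → Fails ℂ r :=
    fun r h0 h => fails h0 (H.MP_aeebd3_an.exC r h)
  refine ⟨?_, ?_⟩
  · obtain ⟨K, h1, h2, h3⟩ := hR
    exact fR _ (Real.sInf_nonneg fun _ h => h.1.le)
      (lt_of_le_of_lt (KG_le h1 h3) h2)
  · obtain ⟨K, h1, h2, h3⟩ := hC
    exact fC _ (Real.sInf_nonneg fun _ h => h.1.le)
      (lt_of_le_of_lt (KG_le h1 h3) h2)

end Pool.Agent.Results.MP_aeebd3_an.BothFields
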